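import Mathlib
import Pool.Agent.Q92.DZ.Fin

/-!
# Artin's holomorphy conjecture at double zeros, for arbitrary Galois groups

`Pool.Agent.H541R3.ART.Irr G` is the set of irreducible complex characters of the finite group `G`.
`Pool.Agent.H541R3.ART.ArtinData G s₀` is a family of functions with the formal properties of the
Artin L-functions of a Galois extension `E/K` with group `G` near a point `s₀ ≠ 1`: functions
`L χ` for the irreducible characters `χ` of `G`, meromorphic and not identically zero near `s₀`
(Brauer), and `Lin H ψ` for the linear characters `ψ` of the subgroups `H`, without pole at `s₀`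
(Artin reciprocity and Hecke), such that `Lin H ψ` is the product of the `L χ ^ ⟨χ|_H, ψ⟩`
(induction). In particular `Lin ⊥ 1` stands for the Dedekind zeta function of `E`.

`Pool.Agent.Q92.DZ.QuaternionZero A`: there are a subgroup `H` with a homomorphism `f` onto the
quaternion group of order eight, such that the L-function of the quadratic character with kernel
`f ⁻¹ {1}` of the subgroup `Z = f ⁻¹ {1, -1}` has order two at `s₀`. In terms of fields: there are
`K ⊆ F ⊆ B ⊆ F' ⊆ E` such that `F'/F` is a quaternion extension, `B/F` is its biquadratic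
subextension, and `ζ_{F'} / ζ_B` has order two at `s₀`.

Proof.  The orders of the `L χ` give a Heilbronn function `θ` of degree two. Without quaternion
zeros `θ` is a sum of two linear characters on a Sylow two-subgroup of the kernel `N` of its
determinant (`Pool.Agent.H302R2.two_group_split`); a transfer argument gives a linear character `φ`
of `N`, of two-power order, whose kernel `K` consists of the elements whose two-part lies in the
kernel of `θ`. By the kernel theorem (`Pool.Agent.H302R2.kernel_two`) `θ` is constant on the normal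
subgroup `M` generated by the two-elements of `K`, and `K / M` has odd order, so that `θ` is a sum of
two linear characters on `K` (`Pool.Agent.H302R2.odd_split`). So `θ` factors through a quotient
of `G` with an abelian and two cyclic layers, and such groups have no frames, so that `θ` is a
character.
-/

set_option autoImplicit false

open Pool.Agent.H541R3.ART

/-- Let `G`, an arbitrary finite group, be the Galois group of `E/K`, and let the order of `ζ_E` at
`s₀` be at most two.
(1) If there is no quaternion zero, then no `L χ` has a pole at `s₀`, and only the `L χ` with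
`χ 1 ≤ 2` can vanish at `s₀`.
(2) If the L-function of some linear character of `G` vanishes at `s₀`, then no `L χ` has a pole at
`s₀`, and the `L χ` with `χ 1 ≠ 1` do not vanish at `s₀`. -/
theorem Pool.Agent.Results.MP_d2121a_nt.DoubleZeros.result
    (G : Type) [Group G] [Finite G] (s₀ : ℂ) (A : ArtinData G s₀) (r : ℕ)
    (hr : meromorphicOrderAt (A.Lin ⊥ 1) s₀ = (r : WithTop ℤ)) (hr2 : r ≤ 2) :
    (¬ Pool.Agent.Q92.DZ.QuaternionZero A →
      ∀ χ ∈ Irr G, 0 ≤ meromorphicOrderAt (A.L χ) s₀ ∧
        (meromorphicOrderAt (A.L χ) s₀ ≠ 0 → χ 1 = 1 ∨ χ 1 = 2)) ∧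
    ((∃ ρ : G →* ℂˣ, meromorphicOrderAt (A.L fun g => ((ρ g : ℂˣ) : ℂ)) s₀ ≠ 0) →
      ∀ χ ∈ Irr G, 0 ≤ meromorphicOrderAt (A.L χ) s₀ ∧
        (meromorphicOrderAt (A.L χ) s₀ ≠ 0 → χ 1 = 1)) := by
  refine ⟨fun hA χ hχ => ⟨Pool.Agent.Q92.DZ.artin_quat A hr2 hr hA χ hχ, fun h => ?_⟩,
    fun ⟨ρ, hρ⟩ χ hχ => Pool.Agent.Q92.DZ.artin_contains A hr2 hr ρ hρ χ hχ⟩
  obtain ⟨d, hd, hdr⟩ := Pool.Agent.Q92.DZ.deg_le A hr
    (fun χ hχ => Pool.Agent.Q92.DZ.artin_quat A hr2 hr hA χ hχ) χ hχ h
  obtain ⟨d', hd', hd'1⟩ := Pool.Agent.W446.AS.irr_deg_pos hχ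
  have h1 : d = d' := by
    have : (d : ℂ) = d' := by rw [← hd, ← hd'1]
    exact_mod_cast this
  have h2 : d = 1 ∨ d = 2 := by omega
  rcases h2 with h2 | h2
  · left; rw [hd, h2]; norm_num
  · right; rw [hd, h2]; norm_num
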