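import Mathlib
import Pool.Agent.Q18.LF.Artin

/-!
# Artin's holomorphy conjecture and bounds for character sums over primes on one sequence of windows

Let `χ` be a real-valued character of the Galois group of a finite Galois extension of `ℚ` (the L-functions over other
number fields are obtained by induction). By Brauer's theorem the Artin L-function `L(s, χ)` is a quotient `U / V` of
products of Hecke L-functions (times powers of `s - 1`); Artin's conjecture says that it has no poles except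
possibly at `s = 1`. Let

  `P(x) = ∑_{p ≤ x} χ(Frob_p)`.

If `P(x) = O(x^c)` for all `x`, then `L(s, χ)` is holomorphic and nonzero for `Re s > c`. We show that it suffices to
have such a bound on one sequence of windows, which may be as sparse as we like, and that one-sided bounds are enough
if the zeros or the poles on the real line are known. Let `c ≥ 1/2` and `δ > 0`.

* If there are arbitrarily large `X` such that `|P(x)| < x^c` for all `x ∈ [X^{1-δ}, X]`, then `L(s, χ)` has neither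
  zeros nor poles with `Re s > c`.
* If `L(s, χ)` has no real poles `> c`, then it suffices that `P(x) > -x^c` for all `x ∈ [X^{1-δ}, X]` (real zeros
  are allowed, and excluded by the conclusion).
* If `L(s, χ)` has no real zeros `> c`, then it suffices that `P(x) < x^c` for all `x ∈ [X^{1-δ}, X]`.
* For `Ψ(x) = ∑_{p^k ≤ x} χ(Frob_p^k) / k` and any `c`: if there are arbitrarily large `X` such that `|Ψ(x)| < x^c` on
  `[X^{1-δ}, X]`, then moreover `c ≥ 1/2`.

Equivalently, if Artin's conjecture or the Riemann hypothesis fails for `L(s, χ)` by a pole or a zero with real part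
`β > 1/2`, then for every `c < β`, *every* interval `[X^{1-δ}, X]`, `X` large, contains an `x` with `|P(x)| ≥ x^c`.

The structure `ArtinL` lists what is used of `χ`; all of it is known (Artin, Hecke, Brauer).

The proof: let `b` be the supremum of the real parts of the zeros and poles. The average of the summatory function of
the coefficients of `log L(s, χ)`, multiplied by `e^{-su}`, against a Gaussian of width about `√Y` centred at `Y`, is
exponentially large in `Y` at a suitable point `s` with `Re s` slightly less than `b`, since at a generic point a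
single term of the explicit formula dominates. For the one-sided statements one compares it with the average at the
real point `Re s`. The functional equation shows that `b ≥ 1/2`.
-/

set_option autoImplicit false

namespace Pool.Agent.Results.MP_d2121a_nt.SparseWindows

open Pool.Agent.Q18.LF

/-- **Zeros and poles of Artin L-functions from bounds on one sequence of windows.**
`psumP α x = ∑_{p ≤ x} χ(Frob_p)`, `psum α x = ∑_{p^k ≤ x} χ(Frob_p^k) / k`, and `L(s, χ) = U(s) / V(s)`. -/
theorem result {m : ℕ} {N : ℝ} {κ : Fin m → ℂ} {α : Nat.Primes → Fin m → ℂ} {W : ℂ} {U V : ℂ → ℂ}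
    (h : ArtinL N κ α W U V) (c δ : ℝ) (hδ : 0 < δ) :
    (1 / 2 ≤ c →
      (∀ X₀ : ℝ, ∃ X : ℝ, X₀ ≤ X ∧ ∀ x : ℝ, X ^ (1 - δ) ≤ x → x ≤ X → |psumP α x| < x ^ c) →
      ∀ s : ℂ, c < s.re → meromorphicOrderAt (fun z => U z / V z) s = 0) ∧
    (1 / 2 ≤ c → (∀ β : ℝ, c < β → 0 ≤ meromorphicOrderAt (fun z => U z / V z) (β : ℂ)) →
      (∀ X₀ : ℝ, ∃ X : ℝ, X₀ ≤ X ∧ ∀ x : ℝ, X ^ (1 - δ) ≤ x → x ≤ X → -x ^ c < psumP α x) →
      ∀ s : ℂ, c < s.re → meromorphicOrderAt (fun z => U z / V z) s = 0) ∧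
    (1 / 2 ≤ c → (∀ β : ℝ, c < β → meromorphicOrderAt (fun z => U z / V z) (β : ℂ) ≤ 0) →
      (∀ X₀ : ℝ, ∃ X : ℝ, X₀ ≤ X ∧ ∀ x : ℝ, X ^ (1 - δ) ≤ x → x ≤ X → psumP α x < x ^ c) →
      ∀ s : ℂ, c < s.re → meromorphicOrderAt (fun z => U z / V z) s = 0) ∧
    ((∀ X₀ : ℝ, ∃ X : ℝ, X₀ ≤ X ∧ ∀ x : ℝ, X ^ (1 - δ) ≤ x → x ≤ X → |psum α x| < x ^ c) →
      1 / 2 ≤ c ∧ ∀ s : ℂ, c < s.re → meromorphicOrderAt (fun z => U z / V z) s = 0) := by
  refine ⟨fun hc hX s hs => ?_, fun hc hr hX s hs => ?_, fun hc hr hX s hs => ?_, fun hX => ?_⟩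
  · by_contra h0
    obtain ⟨X₀, hX₀⟩ := Filter.eventually_atTop.1 (artin_two (c := c) h hδ (Or.inr ⟨s, hs, h0⟩))
    obtain ⟨X, hX1, hX2⟩ := hX X₀
    obtain ⟨x, h1, h2, -, h3⟩ := hX₀ X hX1
    exact absurd (hX2 x h1 h2) (not_lt.2 (h3 hc))
  · by_contra h0
    obtain ⟨X₀, hX₀⟩ := Filter.eventually_atTop.1 (artin_neg (c := c) h hδ hr (Or.inr ⟨s, hs, h0⟩))
    obtain ⟨X, hX1, hX2⟩ := hX X₀
    obtain ⟨x, h1, h2, -, h3⟩ := hX₀ X hX1
    exact absurd (hX2 x h1 h2) (not_lt.2 (h3 hc))
  · by_contra h0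
    obtain ⟨X₀, hX₀⟩ := Filter.eventually_atTop.1 (artin_pos (c := c) h hδ hr (Or.inr ⟨s, hs, h0⟩))
    obtain ⟨X, hX1, hX2⟩ := hX X₀
    obtain ⟨x, h1, h2, -, h3⟩ := hX₀ X hX1
    exact absurd (hX2 x h1 h2) (not_lt.2 (h3 hc))
  · have k : ¬ (c < 1 / 2 ∨ ∃ ρ : ℂ, c < ρ.re ∧ meromorphicOrderAt (fun z => U z / V z) ρ ≠ 0) := by
      intro hcon
      obtain ⟨X₀, hX₀⟩ := Filter.eventually_atTop.1 (artin_two (c := c) h hδ hcon)
      obtain ⟨X, hX1, hX2⟩ := hX X₀
      obtain ⟨x, h1, h2, h3, -⟩ := hX₀ X hX1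
      exact absurd (hX2 x h1 h2) (not_lt.2 h3)
    rw [not_or] at k
    exact ⟨not_lt.1 k.1, fun s hs => by
      by_contra h0
      exact k.2 ⟨s, hs, h0⟩⟩

end Pool.Agent.Results.MP_d2121a_nt.SparseWindows
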