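import Mathlib
import Pool.Agent.Q18.LF.Split

/-!
# Artin's holomorphy conjecture and the number of prime ideals of the top field

Let `E/K` be a Galois extension of number fields with group `G`, and let `π_E(x)` be the number of prime ideals of `E`
of norm at most `x`; up to `O(√x)` it is `[E : K]` times the number of the prime ideals of `K` of norm at most `x` which
split completely in `E`. By the prime ideal theorem `π_E(x) ~ π_K(x)`. We show that a *one-sided* comparison of the two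
counting functions on *one* sequence of windows, which may be as sparse as we like, is enough for Artin's conjecture to
the right of `c`, for all characters at once: let `c ≥ 1/2` and `0 < δ < 1`. If there are arbitrarily large `X` such
that

  `π_K(x) - π_E(x) < x^c` for all `x ∈ [X^{1-δ}, X]`,

then for every nontrivial irreducible character `χ` of `G` the Artin L-function `L(s, χ)` has neither zeros nor poles
with `Re s > c`, `s ≠ 1` (at `s = 1` this is known), and `ζ_E` and `ζ_K` have the same zeros with the same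
multiplicities there. There is no hypothesis on real zeros. The opposite bound `π_E(x) - π_K(x) < x^c` suffices if
`ζ_E/ζ_K` has no real zeros `> c`. With `Π_E(x) = ∑_{N(𝔭)^k ≤ x} 1/k` instead of `π_E(x)` all this holds for `c ≥ 0`.

In other words: if Artin's conjecture or the Riemann hypothesis fails for some nontrivial `L(s, χ)` by a pole or a zero
`ρ` with `Re ρ > 1/2`, then for every `c < Re ρ` *every* interval `[X^{1-δ}, X]`, `X` large, contains an `x` for which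
there are at least `x^c` prime ideals fewer in `E` than in `K`.

The structure `ArtinFam` lists what is used of the Artin L-functions; all of it is known (Artin, Hecke, Brauer).

The proof: by the Aramata-Brauer theorem (we derive what is needed of it from Heilbronn's argument) `F = ζ_E/ζ_K` has no
poles. If it has a zero of real part `> c`, then a localized oscillation theorem for the logarithm of `F` gives in every
window an `x` with `Π_K(x) - Π_E(x) ≥ x^a`, `a > c`. If `F` has no zero at `s₀`, then the Heilbronn character `θ` at `s₀`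
has `⟨θ, 1⟩ = θ(1)`; as `|θ(g)| ≤ θ(1)` this means that `θ` is constant, hence a multiple of the trivial character, so
that all nontrivial `L(s, χ)` have order `0` at `s₀`.
-/

set_option autoImplicit false

namespace Pool.Agent.Results.MP_d2121a_nt.SplitPrimes

open Pool.Agent.Q18.LF Pool.Agent.H541R3.ART

/-- **All Artin L-functions of `E/K` from a one-sided comparison of the prime ideals of `E` and `K` on sparse
windows.** `piP E x` is the number of prime ideals of `E` of norm at most `x`. -/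
theorem result {K E : Type} [Field K] [NumberField K] [Field E] [NumberField E] [Algebra K E] [IsGalois K E]
    {ZE ZK : ℂ → ℂ} {L : ((E ≃ₐ[K] E) → ℂ) → ℂ → ℂ} (h : ArtinFam K E ZE ZK L) (c δ : ℝ) (hδ : 0 < δ) (hδ1 : δ < 1) :
    (1 / 2 ≤ c →
      (∀ X₀ : ℝ, ∃ X : ℝ, X₀ ≤ X ∧ ∀ x : ℝ, X ^ (1 - δ) ≤ x → x ≤ X → (piP K x : ℝ) - piP E x < x ^ c) →
      ∀ s : ℂ, c < s.re → s ≠ 1 → meromorphicOrderAt ZE s = meromorphicOrderAt ZK s ∧
        ∀ χ ∈ Irr (E ≃ₐ[K] E), (χ ≠ fun _ => 1) → meromorphicOrderAt (L χ) s = 0) ∧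
    (1 / 2 ≤ c → (∀ β : ℝ, c < β → meromorphicOrderAt (ZE * ZK⁻¹) (β : ℂ) ≤ 0) →
      (∀ X₀ : ℝ, ∃ X : ℝ, X₀ ≤ X ∧ ∀ x : ℝ, X ^ (1 - δ) ≤ x → x ≤ X → (piP E x : ℝ) - piP K x < x ^ c) →
      ∀ s : ℂ, c < s.re → s ≠ 1 → meromorphicOrderAt ZE s = meromorphicOrderAt ZK s ∧
        ∀ χ ∈ Irr (E ≃ₐ[K] E), (χ ≠ fun _ => 1) → meromorphicOrderAt (L χ) s = 0) ∧
    (0 ≤ c →
      (∀ X₀ : ℝ, ∃ X : ℝ, X₀ ≤ X ∧ ∀ x : ℝ, X ^ (1 - δ) ≤ x → x ≤ X → PiP K x - PiP E x < x ^ c) →
      ∀ s : ℂ, c < s.re → s ≠ 1 → meromorphicOrderAt ZE s = meromorphicOrderAt ZK s ∧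
        ∀ χ ∈ Irr (E ≃ₐ[K] E), (χ ≠ fun _ => 1) → meromorphicOrderAt (L χ) s = 0) ∧
    (0 ≤ c → (∀ β : ℝ, c < β → meromorphicOrderAt (ZE * ZK⁻¹) (β : ℂ) ≤ 0) →
      (∀ X₀ : ℝ, ∃ X : ℝ, X₀ ≤ X ∧ ∀ x : ℝ, X ^ (1 - δ) ≤ x → x ≤ X → PiP E x - PiP K x < x ^ c) →
      ∀ s : ℂ, c < s.re → s ≠ 1 → meromorphicOrderAt ZE s = meromorphicOrderAt ZK s ∧
        ∀ χ ∈ Irr (E ≃ₐ[K] E), (χ ≠ fun _ => 1) → meromorphicOrderAt (L χ) s = 0) := by
  have key : (¬ ∃ ρ : ℂ, c < ρ.re ∧ meromorphicOrderAt (ZE * ZK⁻¹) ρ ≠ 0) →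
      ∀ s : ℂ, c < s.re → s ≠ 1 → meromorphicOrderAt ZE s = meromorphicOrderAt ZK s ∧
        ∀ χ ∈ Irr (E ≃ₐ[K] E), (χ ≠ fun _ => 1) → meromorphicOrderAt (L χ) s = 0 := by
    intro hno s hs hs1
    refine (h.loc hs1).2 ?_
    by_contra h0
    exact hno ⟨s, hs, h0⟩
  refine ⟨fun hc hX => key fun hcon => ?_, fun hc hr hX => key fun hcon => ?_, fun hc hX => key fun hcon => ?_,
    fun hc hr hX => key fun hcon => ?_⟩
  · obtain ⟨a, h1, h2⟩ := two_neg h.top h.bot (by linarith : (0 : ℝ) ≤ c) hδ (fun x _ => h.real x) hcon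
    obtain ⟨X₀, hX₀⟩ := Filter.eventually_atTop.1 (to_primes hc h1 hδ hδ1 h2)
    obtain ⟨X, hX1, hX2⟩ := hX X₀
    obtain ⟨x, h3, h4, h5⟩ := hX₀ X hX1
    exact absurd (hX2 x h3 h4) (not_lt.2 h5)
  · obtain ⟨a, h1, h2⟩ := two_pos h.top h.bot (by linarith : (0 : ℝ) ≤ c) hδ hr hcon
    obtain ⟨X₀, hX₀⟩ := Filter.eventually_atTop.1 (to_primes hc h1 hδ hδ1 h2)
    obtain ⟨X, hX1, hX2⟩ := hX X₀
    obtain ⟨x, h3, h4, h5⟩ := hX₀ X hX1
    exact absurd (hX2 x h3 h4) (not_lt.2 h5)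
  · obtain ⟨a, h1, h2⟩ := two_neg h.top h.bot hc hδ (fun x _ => h.real x) hcon
    obtain ⟨X₀, hX₀⟩ := Filter.eventually_atTop.1 h2
    obtain ⟨X, hX1, hX2⟩ := hX X₀
    obtain ⟨x, h3, h4, h5, h6⟩ := hX₀ X hX1
    have h7 : x ^ c ≤ x ^ a := Real.rpow_le_rpow_of_exponent_le h5 h1.le
    exact absurd (hX2 x h3 h4) (not_lt.2 (h7.trans h6))
  · obtain ⟨a, h1, h2⟩ := two_pos h.top h.bot hc hδ hr hcon
    obtain ⟨X₀, hX₀⟩ := Filter.eventually_atTop.1 h2
    obtain ⟨X, hX1, hX2⟩ := hX X₀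
    obtain ⟨x, h3, h4, h5, h6⟩ := hX₀ X hX1
    have h7 : x ^ c ≤ x ^ a := Real.rpow_le_rpow_of_exponent_le h5 h1.le
    exact absurd (hX2 x h3 h4) (not_lt.2 (h7.trans h6))

end Pool.Agent.Results.MP_d2121a_nt.SplitPrimes
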