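import Mathlib
import Pool.Agent.Q28.AH.Main

/-!
# Artin's holomorphy conjecture at zeros which come from Hecke L-functions of subnormal fields

`Pool.Agent.H541R3.ART.Irr G` is the set of irreducible complex characters of the finite group `G`.

`Pool.Agent.H541R3.ART.ArtinData G s₀` is a family of functions with the formal properties of the
Artin L-functions of a Galois extension `E/K` with group `G` near a point `s₀ ≠ 1`: functions
`L χ` for the irreducible characters `χ` of `G` and `Lin H ψ` for the linear characters `ψ` of the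
subgroups `H`, such that `L χ` is meromorphic and not identically zero near `s₀` (Brauer), `Lin H ψ`
has no pole at `s₀` (Artin reciprocity and Hecke), and `Lin H ψ` is the product of the
`L χ ^ ⟨χ|_H, ψ⟩` (induction). In particular `Lin ⊥ 1` stands for the Dedekind zeta function of `E`,
and `Lin H ψ` for a Hecke L-function of the fixed field `E ^ H` of `H`.

`Pool.Agent.Q28.AH.Supersolvable Q`: `Q` has a finite chain of normal subgroups with cyclic quotients
(for example: `Q` is abelian or nilpotent).

`Pool.Agent.W446.AS.Frame X F D`: the centre `Z` of `X` is cyclic and contains all abelian normal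
subgroups of `X`, and `F` is a normal subgroup of `X` containing `Z` such that `F / Z` is abelian of
order `D ^ 2 > 1` and the centraliser of `F` in `X` is `Z`.

`Pool.Agent.W446.AS.TwoDim A` are functions with the formal properties of the Artin L-functions of
the irreducible characters of degree two of the subgroups of `G`, without pole at `s₀`; it is only
used in the last numerical case and in the clause `D ≠ 2`.

The starting file `MP_9fc8a5_nt.SubnormalHeckeZeros` treats the quotients of Dedekind zeta functions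
under the same hypothesis (helper697, on the modules `Pool.Agent.TH820` of helper820); this file treats
the Artin L-functions.
-/

set_option autoImplicit false

open Pool.Agent.H541R3.ART Pool.Agent.W446.AS Pool.Agent.Q28.AH

/-- Let `G` be the Galois group of `E/K` and let `s₀ ≠ 1` be a zero of order `r > 0` of `ζ_E`. Let `S`
be a set of subnormal subgroups `H` of `G` (`E ^ H` is reached from `K` by a chain of Galois
extensions) such that some Hecke L-function of `E ^ H` has the order `r` at `s₀`, and let `N` be the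
normal subgroup generated by the members of `S`, so that `F = E ^ N` is the largest Galois extension of
`K` contained in all the fields `E ^ H`, `H ∈ S`. Then there is a linear character `μ` of `N`,
invariant under `G`, such that:
(1) for `H ≤ N` the L-function of a linear character `l` of `H` has order `r` at `s₀` if and only if
`l = μ|_H`; in particular `r` is the order of the Hecke L-function of `μ` of the field `F`, and `μ` is
unique;
(2) for every irreducible `χ` such that `L χ` has a zero or a pole at `s₀`, `N` acts through the scalars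
`μ`, that is `χ n = μ n * χ 1`;
(3) if all the irreducible characters as in (2) are monomial, then no `L χ` has a pole at `s₀`;
(4) if `Gal(F/K) = G / N` is supersolvable, then no `L χ` has a pole at `s₀`: Artin's conjecture
holds at `s₀` for all the characters of `G`, although `N = Gal(E/F)` is arbitrary;
(5) let `G / N` be solvable and let `Y` be the (solvable) quotient of `G` by the kernel of `μ`. If some
`L χ` has a pole at `s₀`, then some quotient `X` of a subgroup of `Y` has a frame `F` of degree `D` such
that `2 D ≤ r`, or `D ≤ r` and `X / F` is cyclic; and no `L χ` has a pole at `s₀` in each of the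
following cases: `r ≤ 2 P - 2` and all prime divisors of `|Y|` are at least `P ≥ 3`; `r ≤ 12` and `|Y|`
is prime to `6`; `r ≤ 10` and `|Y|` is odd and divisible neither by `375` nor by `1215`; `r ≤ 6`, the
L-functions of degree two have no pole at `s₀`, and `|Y|` is divisible by none of `108`, `160`, `375`. -/
theorem Pool.Agent.Results.MP_d2121a_nt.SubnormalHeckeZeros.result
    (G : Type) [Group G] [Finite G] (s₀ : ℂ) (A : ArtinData G s₀) (r : ℕ) (hr0 : 0 < r)
    (hr : meromorphicOrderAt (A.Lin ⊥ 1) s₀ = (r : WithTop ℤ)) (S : Set (Subgroup G))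
    (hS : ∀ H ∈ S, H.IsSubnormal ∧
      ∃ l : H →* ℂˣ, meromorphicOrderAt (A.Lin H l) s₀ = (r : WithTop ℤ))
    (N : Subgroup G) [hNn : N.Normal] (hN : N = Subgroup.normalClosure (⋃ H ∈ S, (H : Set G))) :
    ∃ μ : N →* ℂˣ,
      (∀ (g : G) (n : N), μ ⟨g * n * g⁻¹, hNn.conj_mem n n.2 g⟩ = μ n) ∧
      (∀ (H : Subgroup G) (hHN : H ≤ N) (l : H →* ℂˣ),
        meromorphicOrderAt (A.Lin H l) s₀ = (r : WithTop ℤ) ↔ ∀ h : H, l h = μ ⟨h, hHN h.2⟩) ∧
      (∀ χ ∈ Irr G, meromorphicOrderAt (A.L χ) s₀ ≠ 0 → ∀ n : N, χ n = (μ n : ℂ) * χ 1) ∧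
      ((∀ χ ∈ Irr G, (∀ n : N, χ n = (μ n : ℂ) * χ 1) → IsMonomialChar χ) →
        ∀ χ ∈ Irr G, 0 ≤ meromorphicOrderAt (A.L χ) s₀) ∧
      (Supersolvable (G ⧸ N) → ∀ χ ∈ Irr G, 0 ≤ meromorphicOrderAt (A.L χ) s₀) ∧
      ∀ (Y : Type) [Group Y] [Group.IsSolvable Y] (π : G →* Y), Function.Surjective π →
        (∀ g, π g = 1 ↔ ∃ h : g ∈ N, μ ⟨g, h⟩ = 1) →
        ((∃ χ ∈ Irr G, meromorphicOrderAt (A.L χ) s₀ < 0) →
          ∃ (H : Subgroup Y) (X : Type) (_ : Group X) (f : H →* X) (F : Subgroup X) (D : ℕ),
            Function.Surjective f ∧ Frame X F D ∧ (Nonempty (TwoDim A) → D ≠ 2) ∧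
            (2 * D ≤ r ∨ (D ≤ r ∧ ∃ g : X, F ⊔ Subgroup.zpowers g = ⊤))) ∧
        (((∃ P : ℕ, 3 ≤ P ∧ r ≤ 2 * P - 2 ∧ ∀ q : ℕ, q.Prime → q ∣ Nat.card Y → P ≤ q) ∨
            (r ≤ 12 ∧ (Nat.card Y).Coprime 6) ∨
            (r ≤ 10 ∧ Odd (Nat.card Y) ∧ ¬ 375 ∣ Nat.card Y ∧ ¬ 1215 ∣ Nat.card Y) ∨
            (r ≤ 6 ∧ Nonempty (TwoDim A) ∧ ¬ 108 ∣ Nat.card Y ∧ ¬ 160 ∣ Nat.card Y ∧
              ¬ 375 ∣ Nat.card Y)) →
          ∀ χ ∈ Irr G, 0 ≤ meromorphicOrderAt (A.L χ) s₀) := by
  obtain ⟨μ, hμ, hc, -, hH, hχ⟩ := scalars A hr0 hr S hS N hN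
  refine ⟨μ, hc, hH, hχ, fun hm χ hχ' => ?_, fun h => super_holo A hr N μ hμ hc h,
    fun Y _ _ π hπ hker => (general A hr N μ hμ π hπ hker ⊥ Pool.Agent.TH820.BuiltC.bot).2 Y (MonoidHom.id Y)
      Function.surjective_id (by ext y; simp)⟩
  by_cases h0 : meromorphicOrderAt (A.L χ) s₀ = 0
  · exact h0.ge
  · exact mono_of A hχ' (hm χ hχ' (hχ χ hχ' h0))
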